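import Mathlib
set_option autoImplicit false
namespace Pool.Agent.Results.MP_c68965_al.Counter
open scoped commutatorElement

instance : Fact (Nat.Prime 31) := ⟨by norm_num⟩

@[ext] structure H where
  m : (ZMod 31)ˣ
  x : ZMod 31
  y : ZMod 31

instance : Mul H := ⟨fun g h => ⟨g.m * h.m, g.x + g.m * h.x, g.y + g.m * h.y⟩⟩
instance : One H := ⟨⟨1, 0, 0⟩⟩
instance : Inv H := ⟨fun g => ⟨g.m⁻¹, -(↑g.m⁻¹ * g.x), -(↑g.m⁻¹ * g.y)⟩⟩
@[simp] lemma mul_m (g h : H) : (g * h).m = g.m * h.m := rfl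
@[simp] lemma mul_x (g h : H) : (g * h).x = g.x + g.m * h.x := rfl
@[simp] lemma mul_y (g h : H) : (g * h).y = g.y + g.m * h.y := rfl
@[simp] lemma one_m : (1 : H).m = 1 := rfl
@[simp] lemma one_x : (1 : H).x = 0 := rfl
@[simp] lemma one_y : (1 : H).y = 0 := rfl
@[simp] lemma inv_m (g : H) : g⁻¹.m = g.m⁻¹ := rfl
@[simp] lemma inv_x (g : H) : g⁻¹.x = -(↑g.m⁻¹ * g.x) := rfl
@[simp] lemma inv_y (g : H) : g⁻¹.y = -(↑g.m⁻¹ * g.y) := rfl
instance : Group H := Group.ofLeftAxioms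
  (fun a b c => by ext <;> simp [mul_assoc] <;> ring) (fun a => by ext <;> simp)
  (fun a => by ext <;> simp [-ZMod.inv_coe_unit])

def eqv : H ≃ (ZMod 31)ˣ × ZMod 31 × ZMod 31 :=
  ⟨fun g => (g.m, g.x, g.y), fun p => ⟨p.1, p.2.1, p.2.2⟩, fun _ => rfl, fun _ => rfl⟩

instance : Finite H := Finite.of_equiv _ eqv.symm

lemma card_H : Nat.card H = 2 * 3 * 5 * 31 ^ 2 := by
  rw [Nat.card_congr eqv]
  rw [Nat.card_prod, Nat.card_prod, Nat.card_units, Nat.card_zmod]
  rfl

def A1 : Subgroup H where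
  carrier := {g | g.m = 1}
  mul_mem' := fun ha hb => by simp_all
  one_mem' := rfl
  inv_mem' := fun ha => by simp_all

lemma solv : Group.IsSolvable H := by
  have h1 : derivedSeries H 1 ≤ A1 := Subgroup.commutator_le.2 fun g _ h _ => by
    show (g * h * g⁻¹ * h⁻¹).m = 1
    simp
  have h3 : ⁅A1, A1⁆ ≤ ⊥ := Subgroup.commutator_le.2 fun g hg h hh => by
    show g * h * g⁻¹ * h⁻¹ = 1
    have a : g.m = 1 := hg
    have b : h.m = 1 := hh
    ext <;> simp [a, b]
  exact ⟨2, le_bot_iff.1 ((Subgroup.commutator_mono h1 h1).trans h3)⟩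

def l (i : Fin 3) (g : H) : ZMod 31 := ![g.x, g.y, g.x + g.y + g.m - 1] i

lemma l_mul (i : Fin 3) (g h : H) : l i (g * h) = l i g + g.m * l i h := by
  fin_cases i <;> simp [l]; ring

lemma l_one (i : Fin 3) : l i 1 = 0 := by fin_cases i <;> simp [l]

lemma l_inv (i : Fin 3) (g : H) : l i g⁻¹ = -(↑g.m⁻¹ * l i g) := by
  have := l_mul i g⁻¹ g
  rw [inv_mul_cancel, l_one, inv_m] at this
  linear_combination -this

def M (i : Fin 3) : Subgroup H where
  carrier := {g | l i g = 0}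
  mul_mem' := fun ha hb => by simp_all [l_mul]
  one_mem' := l_one i
  inv_mem' := fun ha => by simp_all [l_inv, -ZMod.inv_coe_unit]

lemma coatom (i : Fin 3) : IsCoatom (M i) := by
  refine ⟨fun h => ?_, fun K hK => ?_⟩
  · have : (⟨1, 1, 1⟩ : H) ∈ M i := h ▸ Subgroup.mem_top _
    revert this
    show ¬ l i _ = 0
    fin_cases i <;> decide
  · obtain ⟨g, g1, g2⟩ := SetLike.exists_of_lt hK
    rw [eq_top_iff]
    intro h _
    by_cases k : l i h = 0
    · exact hK.le k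
    have g3 : l i g ≠ 0 := g2
    obtain ⟨s, s1, s2⟩ : ∃ s : H, l i s = 0 ∧ s.m = Units.mk0 _ (div_ne_zero k g3) := by
      set μ := Units.mk0 _ (div_ne_zero k g3)
      refine ⟨⟨μ, ![0, 0, 1 - (μ : ZMod 31)] i, 0⟩, ?_, rfl⟩
      fin_cases i <;> simp [l]
    have e : l i (s * g) = l i h := by rw [l_mul, s1, s2]; simp [g3]
    have : (s * g)⁻¹ * h ∈ K := hK.le (show l i _ = 0 by rw [l_mul, l_inv, e, inv_m, neg_add_cancel])
    rw [← mul_inv_cancel_left (s * g) h]
    exact K.mul_mem (K.mul_mem (hK.le s1) g1) this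

theorem result : ∃ (G : Type) (_ : Group G) (_ : Finite G) (_ : Nontrivial G), Group.IsSolvable G ∧
    ∃ (k : ℕ) (M : Fin k → Subgroup G), 1 ≤ k ∧ (∀ i, IsCoatom (M i)) ∧
      (∀ i j, i ≠ j → ∀ g : G, (M i).map (MulAut.conj g).toMonoidHom ≠ M j) ∧
      ⨅ i, M i = frattini G ∧ k < (Nat.card G).primeFactors.card := by
  refine ⟨H, inferInstance, inferInstance, ⟨⟨1, ⟨1, 1, 1⟩, fun h => ?_⟩⟩, solv, 3, M, by norm_num,
    coatom, fun i j hij g h => ?_, ?_, ?_⟩
  · exact absurd (congrArg H.x h) (by decide)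
  · have a : (⟨1, ![0, 1, 1] i, ![1, 0, -1] i⟩ : H) ∈ M i := by
      show l i _ = 0
      fin_cases i <;> simp [l]
    have b : l j (g * _ * g⁻¹) = 0 := (h ▸ Subgroup.mem_map_of_mem _ a : _ ∈ M j)
    rw [l_mul, l_mul, l_inv] at b
    simp [-ZMod.inv_coe_unit] at b
    revert b hij
    fin_cases i <;> fin_cases j <;> simp [l]
  · have : ⨅ i, M i = ⊥ := by
      rw [eq_bot_iff]
      intro g hg
      rw [Subgroup.mem_iInf] at hg
      have a : g.x = 0 := hg 0
      have b : g.y = 0 := hg 1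
      have c : g.x + g.y + g.m - 1 = 0 := hg 2
      rw [Subgroup.mem_bot]
      ext
      · rw [a, b] at c; simpa [sub_eq_zero] using c
      · exact a
      · exact b
    refine le_antisymm (this ▸ bot_le) (le_iInf fun i => frattini_le_coatom (coatom i))
  · rw [card_H]
    have : ({2, 3, 5, 31} : Finset ℕ) ⊆ (2 * 3 * 5 * 31 ^ 2).primeFactors := by
      intro p hp
      simp only [Finset.mem_insert, Finset.mem_singleton] at hp
      rcases hp with rfl | rfl | rfl | rfl <;> norm_num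
    exact Finset.card_le_card this

end Pool.Agent.Results.MP_c68965_al.Counter
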